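import Pool.Agent.H955.ED.LiftSp
import Pool.Agent.H500.ED.Stm

set_option autoImplicit false
set_option linter.unusedSectionVars false

/-!
# `S_LIFT`: lifting representations of finite groups to characteristic zero
-/

namespace Pool.Agent.H955.ED.LIFT

open Polynomial Matrix NumberField
open Pool.Agent.H500.HC (QBar ZBar)

theorem exists_multiset {α β : Type*} (f : α → β) (s : Multiset β) (h : ∀ x ∈ s, x ∈ Set.range f) :
    ∃ t : Multiset α, t.map f = s := by
  induction s using Multiset.induction_on with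
  | empty => exact ⟨0, rfl⟩
  | cons a s ih =>
    obtain ⟨t, ht⟩ := ih fun x hx => h x (Multiset.mem_cons_of_mem hx)
    obtain ⟨b, hb⟩ := h a (Multiset.mem_cons_self a s)
    exact ⟨b ::ₘ t, by rw [Multiset.map_cons, hb, ht]⟩

/-- the localization of the algebraic integers at the kernel of `r` -/
theorem loc {k : Type} [Field k] (r : ZBar →+* k) :
    ∃ (O : Type) (_ : CommRing O) (_ : IsDomain O) (i : O →+* QBar) (φ : O →+* k)
      (j : ZBar →+* O), Function.Injective i ∧ Hen φ ∧ (∀ z, i (j z) = (z : QBar)) ∧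
      ∀ z, φ (j z) = r z := by
  classical
  have hprime : (RingHom.ker r).IsPrime := RingHom.ker_isPrime r
  set M : Submonoid ZBar := (RingHom.ker r).primeCompl with hM
  have hM0 : ∀ m : M, (m : ZBar) ≠ 0 := by
    rintro ⟨m, hm⟩ h0
    apply hm
    change m ∈ RingHom.ker r
    rw [show m = 0 from h0]
    exact zero_mem _
  have hMle : M ≤ nonZeroDivisors ZBar := le_nonZeroDivisors_of_noZeroDivisors fun h => by
    exact hM0 ⟨0, h⟩ rfl
  let O := Localization M
  have hdom : IsDomain O := IsLocalization.isDomain_localization hMle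
  have hiu : ∀ y : M, IsUnit ((algebraMap ZBar QBar) y) := by
    intro y
    apply IsUnit.mk0
    intro h
    apply hM0 y
    apply RingOfIntegers.coe_injective
    rw [map_zero]
    exact h
  have hru : ∀ y : M, IsUnit (r y) := by
    rintro ⟨y, hy⟩
    exact IsUnit.mk0 _ fun h => hy h
  let i : O →+* QBar := IsLocalization.lift hiu
  let φ : O →+* k := IsLocalization.lift hru
  have hij : ∀ z, i (algebraMap ZBar O z) = (z : QBar) := fun z => IsLocalization.lift_eq hiu z
  have hφj : ∀ z, φ (algebraMap ZBar O z) = r z := fun z => IsLocalization.lift_eq hru z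
  have hinj : Function.Injective i := by
    rw [injective_iff_map_eq_zero]
    intro x hx
    obtain ⟨⟨a, s⟩, ha⟩ := IsLocalization.surj M x
    have h1 := congrArg i ha
    rw [map_mul, hx, zero_mul, hij] at h1
    have h2 : a = 0 := by
      apply RingOfIntegers.coe_injective
      rw [map_zero]
      exact h1.symm
    simp only at ha
    rw [h2, map_zero] at ha
    exact (mul_eq_zero.1 ha).resolve_right fun h =>
      (IsLocalization.map_units O s).ne_zero h
  have hun : ∀ x, φ x ≠ 0 → IsUnit x := by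
    intro x hx
    obtain ⟨⟨a, s⟩, ha⟩ := IsLocalization.surj M x
    simp only at ha
    have h1 : r a ≠ 0 := by
      rw [← hφj, ← ha, map_mul, hφj]
      exact mul_ne_zero hx (hru s).ne_zero
    have h2 : IsUnit (algebraMap ZBar O a) := IsLocalization.map_units O (⟨a, h1⟩ : M)
    rw [← ha] at h2
    exact isUnit_of_mul_isUnit_left h2
  refine ⟨O, inferInstance, hdom, i, φ, algebraMap ZBar O, hinj, ⟨hun, ?_⟩, hij, hφj⟩
  -- integral elements are in the range of `i`
  have hran : ∀ x : QBar, i.IsIntegralElem x → x ∈ Set.range i := by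
    intro x hx
    let := i.toAlgebra
    have : IsScalarTower ZBar O QBar := IsScalarTower.of_algebraMap_eq fun z => (hij z).symm
    obtain ⟨m, hm⟩ := IsIntegral.exists_multiple_integral_of_isLocalization M (Rₘ := O) x hx
    have hm2 : IsIntegral ℤ (m • x) := isIntegral_trans _ hm
    let z : ZBar := ⟨m • x, hm2⟩
    have hz : (z : QBar) = ((m : ZBar) : QBar) * x := rfl
    obtain ⟨u, hu⟩ := (IsLocalization.map_units O m)
    refine ⟨algebraMap ZBar O z * ((u⁻¹ : Oˣ) : O), ?_⟩
    have h1 : i (u : O) * i ((u⁻¹ : Oˣ) : O) = 1 := by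
      rw [← map_mul, Units.mul_inv, map_one]
    rw [map_mul, hij, hz, ← hij m, ← hu, mul_assoc, mul_comm x, ← mul_assoc, h1, one_mul]
  intro f hf
  have hsp : (f.map i).Splits := IsAlgClosed.splits _
  have hroots : ∀ x ∈ (f.map i).roots, x ∈ Set.range i := by
    intro x hx
    apply hran
    refine ⟨f, hf, ?_⟩
    rw [← eval_map]
    exact isRoot_of_mem_roots hx
  obtain ⟨s, hs⟩ := exists_multiset i _ hroots
  refine ⟨s, ?_⟩
  apply Polynomial.map_injective i hinj
  have h1 := hsp.eq_prod_roots_of_monic (hf.map i)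
  rw [h1, ← hs, Polynomial.map_multiset_prod, Multiset.map_map, Multiset.map_map]
  congr 1
  apply Multiset.map_congr rfl
  intro c _
  simp

theorem main : Pool.Agent.H500.ED.S_LIFT := by
  intro G _ _ n k _ _ r ρ hG
  classical
  have := Fintype.ofFinite G
  obtain ⟨O, _, _, i, φ, j, hi, H, hij, hφj⟩ := loc r
  -- the residue field
  let F : Subfield k := { φ.range with
    inv_mem' := by
      rintro _ ⟨x, rfl⟩
      by_cases h : φ x = 0
      · rw [h, _root_.inv_zero]; exact zero_mem φ.range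
      · obtain ⟨u, rfl⟩ := H.unit x h
        refine ⟨((u⁻¹ : Oˣ) : O), ?_⟩
        have : φ (u : O) * φ ((u⁻¹ : Oˣ) : O) = 1 := by rw [← map_mul, Units.mul_inv, map_one]
        exact eq_inv_of_mul_eq_one_right this }
  let ψ : O →+* F := φ.codRestrict F.toSubring fun x => ⟨x, rfl⟩
  have hψ : ∀ x, ((ψ x : F) : k) = φ x := fun _ => rfl
  have hsurj : Function.Surjective ψ := by
    rintro ⟨_, x, rfl⟩
    exact ⟨x, rfl⟩
  have H' : Hen ψ := ⟨fun x hx => H.unit x fun h => hx (Subtype.ext h), H.split⟩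
  have hF : IsAlgClosed F := by
    apply IsAlgClosed.of_exists_root
    intro p hp hirr
    obtain ⟨q, hq1, hq2, hq3⟩ := Polynomial.lifts_and_natDegree_eq_and_monic
      (f := ψ) (p := p) ((Polynomial.mem_lifts _).2 (Polynomial.map_surjective ψ hsurj p)) hp
    obtain ⟨s, hs⟩ := H.split q hq3
    have hs0 : s ≠ 0 := by
      rintro rfl
      rw [Multiset.map_zero, Multiset.prod_zero] at hs
      rw [hs, Polynomial.map_one] at hq1
      exact hirr.not_isUnit (hq1 ▸ isUnit_one)
    obtain ⟨c, hc⟩ := Multiset.exists_mem_of_ne_zero hs0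
    refine ⟨ψ c, ?_⟩
    rw [← hq1, eval_map, eval₂_at_apply]
    have : q.eval c = 0 := by
      rw [hs, eval_multiset_prod, Multiset.map_map, Multiset.prod_eq_zero_iff, Multiset.mem_map]
      exact ⟨c, hc, by simp⟩
    rw [this, map_zero]
  have hGF : ((Fintype.card G : ℕ) : F) ≠ 0 := by
    intro h
    apply hG
    rw [Nat.card_eq_fintype_card]
    have := congrArg (fun x : F => (x : k)) h
    simpa using this
  let ρm : G →* Matrix (Fin n) (Fin n) k := (Units.coeHom _).comp ρ
  obtain ⟨ρ0, hρ0⟩ := special (F := F) ρm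
  obtain ⟨ρ1, hρ1⟩ := core H' hsurj hGF ρ0
  let ρ2 : G →* Matrix (Fin n) (Fin n) QBar := (i.mapMatrix : Matrix (Fin n) (Fin n) O →+* _).toMonoidHom.comp ρ1
  refine ⟨ρ2.toHomUnits, fun g => ?_⟩
  have h1 : ((ρ2.toHomUnits g : GL (Fin n) QBar) : Matrix (Fin n) (Fin n) QBar) = ρ2 g := rfl
  have h2 : (ρ2 g).trace = i (ρ1 g).trace := by
    change ((ρ1 g).map i).trace = _
    rw [Matrix.trace, Matrix.trace, map_sum]
    rfl
  have h3 : IsIntegral ℤ (ρ2 g).trace :=
    integral_trace (ρ2 g) (N := Nat.card G) Nat.card_pos (by rw [← map_pow, pow_card_eq_one', map_one])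
  refine ⟨⟨(ρ2 g).trace, h3⟩, by rw [h1]; rfl, ?_⟩
  have h4 : j ⟨(ρ2 g).trace, h3⟩ = (ρ1 g).trace := by
    apply hi
    rw [hij, ← h2]
    rfl
  rw [← hφj, h4, ← hψ]
  have h5 : ψ (ρ1 g).trace = (ρ0 g).trace := by
    rw [← hρ1 g, Matrix.trace, Matrix.trace, map_sum]
    rfl
  rw [h5]
  exact hρ0 g

end Pool.Agent.H955.ED.LIFT
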