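import Mathlib

set_option autoImplicit false
set_option linter.unusedSectionVars false

/-!
# Lifting representations of finite groups of order prime to the characteristic (core)
-/

namespace Pool.Agent.H955.ED.LIFT

open Polynomial Matrix

/-! ## Polynomials -/

/-- `O` is a local ring with residue map `φ` over which all monic polynomials split -/
structure Hen {O k : Type*} [CommRing O] [CommRing k] (φ : O →+* k) : Prop where
  unit : ∀ x, φ x ≠ 0 → IsUnit x
  split : ∀ f : O[X], f.Monic → ∃ s : Multiset O, f = (s.map fun c => X - C c).prod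

theorem coprime_prod {O k : Type*} [CommRing O] [CommRing k] {φ : O →+* k} (H : Hen φ)
    (s t : Multiset O) (hs : ∀ a ∈ s, φ a ≠ 0) (ht : ∀ a ∈ t, φ a = 0) :
    IsCoprime (s.map fun c => X - C c).prod (t.map fun c => X - C c).prod := by
  have h1 : ∀ a, φ a ≠ 0 → ∀ t : Multiset O, (∀ a ∈ t, φ a = 0) →
      IsCoprime (X - C a) (t.map fun c => X - C c).prod := by
    intro a ha t
    induction t using Multiset.induction_on with
    | empty => intro _; simpa using isCoprime_one_right
    | cons b t ih =>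
      intro h
      rw [Multiset.map_cons, Multiset.prod_cons]
      refine IsCoprime.mul_right ?_ (ih fun c hc => h c (Multiset.mem_cons_of_mem hc))
      apply isCoprime_X_sub_C_of_isUnit_sub
      apply H.unit
      rw [map_sub, h b (Multiset.mem_cons_self b t), sub_zero]
      exact ha
  induction s using Multiset.induction_on with
  | empty => simpa using isCoprime_one_left
  | cons b s ih =>
    rw [Multiset.map_cons, Multiset.prod_cons]
    exact IsCoprime.mul_left (h1 b (hs b (Multiset.mem_cons_self b s)) t ht)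
      (ih fun c hc => hs c (Multiset.mem_cons_of_mem hc))

/-- the polynomial which lifts idempotents -/
theorem idem_poly {O k : Type*} [CommRing O] [IsDomain O] [CommRing k] [Nontrivial k] {φ : O →+* k}
    (H : Hen φ) (f : O[X]) (hf : f.Monic) :
    ∃ g h1 h2 : O[X], g * (g - 1) = f * h1 ∧ g = X + X * (X - 1) * h2 := by
  classical
  have hm : (f * (X * (X - C 1))).Monic := hf.mul (monic_X.mul (monic_X_sub_C 1))
  obtain ⟨s, hs⟩ := H.split _ hm
  set u : O[X] := ((s.filter fun c => φ c ≠ 0).map fun c => X - C c).prod with hu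
  set w : O[X] := ((s.filter fun c => ¬ (φ c ≠ 0)).map fun c => X - C c).prod with hw
  have huw : f * (X * (X - C 1)) = u * w := by
    rw [hs, hu, hw, ← Multiset.prod_add, ← Multiset.map_add, Multiset.filter_add_not]
  have hmem : ∀ c, (f * (X * (X - C 1))).eval c = 0 → c ∈ s := by
    intro c hc
    rw [hs, eval_multiset_prod, Multiset.map_map, Multiset.prod_eq_zero_iff,
      Multiset.mem_map] at hc
    obtain ⟨d, hd, hd2⟩ := hc
    have : c = d := by simpa [sub_eq_zero] using hd2
    rwa [this]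
  have h0 : (0 : O) ∈ s := hmem 0 (by simp)
  have h1 : (1 : O) ∈ s := hmem 1 (by simp)
  have hu1 : u.eval 1 = 0 := by
    rw [hu, eval_multiset_prod, Multiset.map_map, Multiset.prod_eq_zero_iff, Multiset.mem_map]
    refine ⟨1, Multiset.mem_filter.2 ⟨h1, by simp⟩, by simp⟩
  have hw0 : w.eval 0 = 0 := by
    rw [hw, eval_multiset_prod, Multiset.map_map, Multiset.prod_eq_zero_iff, Multiset.mem_map]
    refine ⟨0, Multiset.mem_filter.2 ⟨h0, by simp⟩, by simp⟩
  obtain ⟨p, q, hpq⟩ := coprime_prod H (s.filter fun c => φ c ≠ 0) (s.filter fun c => ¬ (φ c ≠ 0))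
    (fun a ha => (Multiset.mem_filter.1 ha).2)
    (fun a ha => not_not.1 (Multiset.mem_filter.1 ha).2)
  rw [← hu, ← hw] at hpq
  have hg : q * w - 1 = - (p * u) := by linear_combination hpq
  have e0 : (q * w - X).eval 0 = 0 := by simp [hw0]
  have e1 : (q * w).eval 1 = 1 := by
    have : q * w = 1 - p * u := by linear_combination hpq
    rw [this]; simp [hu1]
  obtain ⟨g1, hg1⟩ : X ∣ q * w - X := by
    have := dvd_iff_isRoot.2 (show IsRoot (q * w - X) 0 from e0)
    simpa using this
  have e2 : g1.eval 1 = 0 := by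
    have := congrArg (eval 1) hg1
    rw [eval_sub, e1, eval_X, sub_self, eval_mul, eval_X, one_mul] at this
    exact this.symm
  obtain ⟨g2, hg2⟩ : X - C 1 ∣ g1 := dvd_iff_isRoot.2 e2
  refine ⟨q * w, - (p * q * (X * (X - 1))), g2, ?_, ?_⟩
  · rw [hg]
    have : f * (X * (X - 1)) = u * w := by simpa using huw
    linear_combination (p * q) * this
  · have h3 : g1 = (X - 1) * g2 := by simpa using hg2
    rw [h3] at hg1
    linear_combination hg1

theorem comm_aeval {O A : Type*} [CommRing O] [Ring A] [Algebra O A] (a b : A) (h : Commute b a)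
    (g : O[X]) : Commute b (aeval a g) := by
  induction g using Polynomial.induction_on' with
  | add p q hp hq => rw [map_add]; exact hp.add_right hq
  | monomial n c =>
    rw [aeval_monomial]
    exact (Algebra.commute_algebraMap_right c b).mul_right (h.pow_right n)

/-- idempotents of matrix rings lift, to polynomials in any given lift -/
theorem idem_lift {O k : Type*} [CommRing O] [IsDomain O] [CommRing k] [Nontrivial k] {φ : O →+* k}
    (H : Hen φ) {N : Type*} [Fintype N] [DecidableEq N] (a : Matrix N N O)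
    (ha : φ.mapMatrix a * φ.mapMatrix a = φ.mapMatrix a) :
    ∃ e : Matrix N N O, e * e = e ∧ φ.mapMatrix e = φ.mapMatrix a ∧ ∀ b, Commute b a → Commute b e := by
  obtain ⟨g, h1, h2, e1, e2⟩ := idem_poly H a.charpoly a.charpoly_monic
  refine ⟨aeval a g, ?_, ?_, ?_⟩
  · have h := congrArg (aeval a) e1
    rw [map_mul, map_mul, aeval_self_charpoly, zero_mul, map_sub, map_one, mul_sub, mul_one] at h
    exact sub_eq_zero.1 h
  · rw [e2, map_add, map_mul, map_mul, aeval_X, map_sub, aeval_X, map_one, map_add, map_mul,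
      map_mul, map_sub, map_one, mul_sub, mul_one, ha, sub_self, zero_mul, add_zero]
  · intro b hb
    exact comm_aeval a b hb g

/-! ## The lifting of representations -/

section
variable {O k : Type*} [CommRing O] [IsDomain O] [Field k] {φ : O →+* k}

theorem unit_mat (H : Hen φ) {N : Type*} [Fintype N] [DecidableEq N] (a : Matrix N N O)
    (ha : a.map φ = 1) : IsUnit a := by
  rw [Matrix.isUnit_iff_isUnit_det]
  apply H.unit
  have h : φ a.det = 1 := by
    rw [RingHom.map_det, RingHom.mapMatrix_apply, ha, det_one]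
  rw [h]
  exact one_ne_zero

/-- an idempotent matrix with reduction zero is zero -/
theorem idem_zero (H : Hen φ) {N : Type*} [Fintype N] [DecidableEq N] (a : Matrix N N O)
    (ha : a * a = a) (h0 : a.map φ = 0) : a = 0 := by
  have h1 : IsUnit (1 - a) := by
    apply unit_mat H
    rw [← RingHom.mapMatrix_apply, map_sub, map_one, RingHom.mapMatrix_apply, h0, sub_zero]
  have h2 : (1 - a) * a = 0 := by rw [sub_mul, one_mul, ha, sub_self]
  exact (h1.mul_right_eq_zero).1 h2

variable (O) in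
/-- the permutation matrices of right translations -/
def P {G : Type*} [Group G] [DecidableEq G] (n : ℕ) (g : G) :
    Matrix (G × Fin n) (G × Fin n) O :=
  (1 : Matrix (G × Fin n) (G × Fin n) O).submatrix
    ((Equiv.mulRight g).prodCongr (Equiv.refl (Fin n))) (Equiv.refl _)

variable {G : Type*} [Group G] [Fintype G] [DecidableEq G] {n : ℕ}

theorem P_mul_apply {M : Type*} (g : G) (a : Matrix (G × Fin n) M O) (h : G) (i : Fin n) (m : M) :
    (P O n g * a : Matrix (G × Fin n) M O) (h, i) m = a (h * g, i) m := by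
  rw [P, one_submatrix_mul]
  rfl

theorem mul_P_apply {M : Type*} (g : G) (a : Matrix M (G × Fin n) O) (h : G) (i : Fin n) (m : M) :
    (a * P O n g : Matrix M (G × Fin n) O) m (h, i) = a m (h * g⁻¹, i) := by
  rw [P, mul_submatrix_one]
  rfl

theorem P_one : P O n (1 : G) = 1 := by
  ext ⟨h, i⟩ y
  have := P_mul_apply (O := O) (1 : G) (1 : Matrix (G × Fin n) (G × Fin n) O) h i y
  rw [Matrix.mul_one] at this
  rw [this, mul_one]

theorem P_mul (g h : G) : P O n (g * h) = P O n g * P O n h := by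
  ext ⟨x, i⟩ y
  rw [P_mul_apply]
  have h1 := P_mul_apply (O := O) (g * h) (1 : Matrix (G × Fin n) (G × Fin n) O) x i y
  have h2 := P_mul_apply (O := O) h (1 : Matrix (G × Fin n) (G × Fin n) O) (x * g) i y
  rw [Matrix.mul_one] at h1 h2
  rw [h1, h2, mul_assoc]

theorem P_map (g : G) : (P O n g).map φ = P k n g := by
  rw [P, P, ← submatrix_map, Matrix.map_one φ (map_zero φ) (map_one φ)]

/-- lifting of representations -/
theorem core (H : Hen φ) (hs : Function.Surjective φ) (hG : ((Fintype.card G : ℕ) : k) ≠ 0)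
    (ρ : G →* Matrix (Fin n) (Fin n) k) :
    ∃ ρ' : G →* Matrix (Fin n) (Fin n) O, ∀ g, (ρ' g).map φ = ρ g := by
  classical
  obtain ⟨s, hsφ⟩ : ∃ s : k → O, ∀ x, φ (s x) = x := ⟨Function.surjInv hs, Function.surjInv_eq hs⟩
  set c : k := ((Fintype.card G : ℕ) : k)⁻¹ with hc
  -- the matrices over `k`
  obtain ⟨ι, hι⟩ : ∃ ι : Matrix (G × Fin n) (Fin n) k, ∀ x j, ι x j = ρ x.1 x.2 j :=
    ⟨fun x j => ρ x.1 x.2 j, fun _ _ => rfl⟩
  obtain ⟨π, hπd⟩ : ∃ π : Matrix (Fin n) (G × Fin n) k, ∀ i y, π i y = c * ρ y.1⁻¹ i y.2 :=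
    ⟨fun i y => c * ρ y.1⁻¹ i y.2, fun _ _ => rfl⟩
  have hπ : ∀ g, π * (P k n g * ι) = ρ g := by
    intro g
    ext i j
    rw [Matrix.mul_apply, Fintype.sum_prod_type]
    have : ∀ x : G, ∑ y : Fin n, π i (x, y) * (P k n g * ι : Matrix (G × Fin n) (Fin n) k) (x, y) j =
        c * ρ g i j := by
      intro x
      have h1 : ρ g i j = ∑ y, ρ x⁻¹ i y * ρ (x * g) y j := by
        rw [← Matrix.mul_apply, ← map_mul, inv_mul_cancel_left]
      rw [h1, Finset.mul_sum]
      refine Finset.sum_congr rfl fun y _ => ?_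
      rw [P_mul_apply, hπd, hι, mul_assoc]
    rw [Finset.sum_congr rfl fun x _ => this x, Finset.sum_const, Finset.card_univ, nsmul_eq_mul,
      ← mul_assoc, hc, mul_inv_cancel₀ hG, one_mul]
  have hπι : π * ι = 1 := by
    have := hπ 1
    rwa [P_one, Matrix.one_mul, map_one] at this
  -- the lift of the projection
  obtain ⟨a, had⟩ : ∃ a : Matrix (G × Fin n) (G × Fin n) O, ∀ x y,
      a x y = s (c * ρ (x.1 * y.1⁻¹) x.2 y.2) :=
    ⟨fun x y => s (c * ρ (x.1 * y.1⁻¹) x.2 y.2), fun _ _ => rfl⟩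
  have ha1 : a.map φ = ι * π := by
    ext x y
    rw [map_apply, had, hsφ, Matrix.mul_apply, map_mul, Matrix.mul_apply, Finset.mul_sum]
    refine Finset.sum_congr rfl fun z _ => ?_
    rw [hπd, hι]
    ring
  have ha2 : ∀ g, Commute (P O n g) a := by
    intro g
    ext ⟨x, i⟩ ⟨y, j⟩
    rw [P_mul_apply, mul_P_apply, had, had]
    simp only [_root_.mul_inv_rev, inv_inv, mul_assoc]
  obtain ⟨e, he1, he2, he3⟩ := idem_lift H a (by
    rw [RingHom.mapMatrix_apply, ha1, Matrix.mul_assoc, ← Matrix.mul_assoc π, hπι, Matrix.one_mul])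
  rw [RingHom.mapMatrix_apply, RingHom.mapMatrix_apply, ha1] at he2
  -- the lifts of `ι` and `π`
  obtain ⟨B, hBd⟩ : ∃ B : Matrix (G × Fin n) (Fin n) O, ∀ x j, B x j = s (ι x j) :=
    ⟨fun x j => s (ι x j), fun _ _ => rfl⟩
  obtain ⟨A, hAd⟩ : ∃ A : Matrix (Fin n) (G × Fin n) O, ∀ i y, A i y = s (π i y) :=
    ⟨fun i y => s (π i y), fun _ _ => rfl⟩
  have hB : B.map φ = ι := by ext x j; rw [map_apply, hBd, hsφ]
  have hA : A.map φ = π := by ext x j; rw [map_apply, hAd, hsφ]
  have hU : IsUnit (A * e * B) := by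
    apply unit_mat H
    rw [Matrix.map_mul, Matrix.map_mul, hA, hB, he2, ← Matrix.mul_assoc, hπι, Matrix.one_mul, hπι]
  obtain ⟨V, hV1, hV2⟩ : ∃ V : Matrix (Fin n) (Fin n) O, V * (A * e * B) = 1 ∧
      (A * e * B) * V = 1 := by
    obtain ⟨v, hv⟩ := hU
    exact ⟨((v⁻¹ : (Matrix (Fin n) (Fin n) O)ˣ) : Matrix (Fin n) (Fin n) O), by rw [← hv]; simp,
      by rw [← hv]; simp⟩
  have hVr : V.map φ = 1 := by
    have h1 := congrArg (fun M : Matrix (Fin n) (Fin n) O => M.map φ) hV1
    simp only [Matrix.map_mul] at h1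
    rw [hA, hB, he2, ← Matrix.mul_assoc π, hπι, Matrix.one_mul, hπι, Matrix.mul_one,
      Matrix.map_one φ (map_zero φ) (map_one φ)] at h1
    exact h1
  obtain ⟨C, hC⟩ : ∃ C : Matrix (Fin n) (G × Fin n) O, C = V * (A * e) := ⟨_, rfl⟩
  obtain ⟨D, hD⟩ : ∃ D : Matrix (G × Fin n) (Fin n) O, D = e * B := ⟨_, rfl⟩
  have hCe : C * e = C := by rw [hC, Matrix.mul_assoc, Matrix.mul_assoc, he1]
  have heD : e * D = D := by rw [hD, ← Matrix.mul_assoc, he1]
  have hCD : C * D = 1 := by
    rw [hC, hD, Matrix.mul_assoc, ← Matrix.mul_assoc (A * e), Matrix.mul_assoc A, he1, hV1]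
  have hCr : C.map φ = π := by
    rw [hC, Matrix.map_mul, Matrix.map_mul, hVr, Matrix.one_mul, hA, he2, ← Matrix.mul_assoc, hπι,
      Matrix.one_mul]
  have hDr : D.map φ = ι := by
    rw [hD, Matrix.map_mul, hB, he2, Matrix.mul_assoc, hπι, Matrix.mul_one]
  have hDC : D * C = e := by
    have h1 : (e - D * C) * (e - D * C) = e - D * C := by
      rw [mul_sub, sub_mul, sub_mul, he1, Matrix.mul_assoc D C e, hCe, ← Matrix.mul_assoc e D C, heD,
        Matrix.mul_assoc D C, ← Matrix.mul_assoc C D, hCD, Matrix.one_mul, sub_self, sub_zero]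
    have h2 : (e - D * C).map φ = 0 := by
      rw [← RingHom.mapMatrix_apply, map_sub, RingHom.mapMatrix_apply, RingHom.mapMatrix_apply,
        he2, Matrix.map_mul, hCr, hDr, sub_self]
    exact (sub_eq_zero.1 (idem_zero H _ h1 h2)).symm
  refine ⟨⟨⟨fun g => C * (P O n g * D), ?_⟩, ?_⟩, ?_⟩
  · rw [P_one, Matrix.one_mul, hCD]
  · intro g h
    change C * (P O n (g * h) * D) = C * (P O n g * D) * (C * (P O n h * D))
    rw [P_mul, Matrix.mul_assoc C, Matrix.mul_assoc (P O n g) D, ← Matrix.mul_assoc D C, hDC,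
      ← Matrix.mul_assoc e, ← (he3 _ (ha2 h)).eq, Matrix.mul_assoc (P O n h) e, heD,
      Matrix.mul_assoc]
  · intro g
    change (C * (P O n g * D)).map φ = ρ g
    rw [Matrix.map_mul, Matrix.map_mul, hCr, hDr, P_map, hπ]

end

end Pool.Agent.H955.ED.LIFT
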