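import Pool.Agent.H955.ED.LiftCore

set_option autoImplicit false
set_option linter.unusedSectionVars false

/-!
# Specialization of representations to an algebraically closed subfield; traces
-/

namespace Pool.Agent.H955.ED.LIFT

open Polynomial Matrix

/-- traces of matrices of finite order are integral -/
theorem integral_trace {R K : Type*} [CommRing R] [Field K] [Algebra R K] [IsAlgClosed K] {n : ℕ}
    (M : Matrix (Fin n) (Fin n) K) {N : ℕ} (hN : 0 < N) (hM : M ^ N = 1) : IsIntegral R M.trace := by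
  rw [Matrix.trace_eq_sum_roots_charpoly]
  refine IsIntegral.multiset_sum ?_
  intro x hx
  have h1 : IsRoot M.charpoly x := isRoot_of_mem_roots hx
  have h2 : x ∈ spectrum K M := Matrix.mem_spectrum_of_isRoot_charpoly h1
  have h3 : x ^ N ∈ spectrum K (M ^ N) := spectrum.pow_mem_pow M N h2
  have h4 : x ^ N = 1 := by
    rw [hM] at h3
    by_contra h
    rw [spectrum.mem_iff] at h3
    apply h3
    have : (algebraMap K (Matrix (Fin n) (Fin n) K)) (x ^ N) - 1 =
        algebraMap K (Matrix (Fin n) (Fin n) K) (x ^ N - 1) := by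
      rw [map_sub, map_one]
    rw [this]
    exact (IsUnit.mk0 _ (sub_ne_zero.2 h)).map (algebraMap K (Matrix (Fin n) (Fin n) K))
  exact IsIntegral.of_pow hN (h4 ▸ isIntegral_one)

/-- specialization -/
theorem special {F k : Type*} [Field F] [IsAlgClosed F] [Field k] [IsAlgClosed k] [Algebra F k]
    {G : Type*} [Group G] [Finite G] {n : ℕ} (ρ : G →* Matrix (Fin n) (Fin n) k) :
    ∃ ρ' : G →* Matrix (Fin n) (Fin n) F, ∀ g, algebraMap F k (ρ' g).trace = (ρ g).trace := by
  classical
  let S : Subalgebra F k := Algebra.adjoin F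
    (Set.range fun p : G × Fin n × Fin n => ρ p.1 p.2.1 p.2.2)
  have hS : S.FG := Subalgebra.fg_def.2 ⟨_, Set.finite_range _, rfl⟩
  have : Algebra.FiniteType F S := S.fg_iff_finiteType.1 hS
  obtain ⟨m, hm⟩ := Ideal.exists_maximal S
  let := Ideal.Quotient.field m
  have h1 : Module.Finite F (S ⧸ m) := finite_of_finite_type_of_isJacobsonRing F (S ⧸ m)
  have h2 : Function.Bijective (algebraMap F (S ⧸ m)) :=
    IsAlgClosed.algebraMap_bijective_of_isIntegral
  let e : F ≃ₐ[F] (S ⧸ m) := AlgEquiv.ofBijective (Algebra.ofId F (S ⧸ m)) h2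
  let f : S →ₐ[F] F := e.symm.toAlgHom.comp (Ideal.Quotient.mkₐ F m)
  have hmem : ∀ g i j, ρ g i j ∈ S := fun g i j =>
    Algebra.subset_adjoin ⟨(g, i, j), rfl⟩
  obtain ⟨ρS, hρS⟩ : ∃ ρS : G →* Matrix (Fin n) (Fin n) S, ∀ g i j, ((ρS g i j : S) : k) = ρ g i j := by
    refine ⟨⟨⟨fun g i j => ⟨ρ g i j, hmem g i j⟩, ?_⟩, ?_⟩, fun _ _ _ => rfl⟩
    · ext i j
      change ρ 1 i j = (((1 : Matrix (Fin n) (Fin n) S) i j : S) : k)
      rw [map_one, one_apply, one_apply]
      split_ifs <;> rfl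
    · intro g h
      ext i j
      change ρ (g * h) i j = _
      rw [map_mul, Matrix.mul_apply]
      simp only [Matrix.mul_apply]
      rw [AddSubmonoidClass.coe_finsetSum]
      rfl
  refine ⟨(f.toRingHom.mapMatrix : Matrix (Fin n) (Fin n) S →+* Matrix (Fin n) (Fin n) F).toMonoidHom.comp ρS,
    fun g => ?_⟩
  obtain ⟨N, hN, hNg⟩ : ∃ N, 0 < N ∧ g ^ N = 1 :=
    ⟨Nat.card G, Nat.card_pos, pow_card_eq_one'⟩
  have h3 : IsIntegral F (ρ g).trace := integral_trace (ρ g) hN (by rw [← map_pow, hNg, map_one])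
  obtain ⟨t, ht⟩ : ∃ t : F, algebraMap F k t = (ρ g).trace := by
    have h4 : (minpoly F (ρ g).trace).degree = 1 :=
      IsAlgClosed.degree_eq_one_of_irreducible F (minpoly.irreducible h3)
    exact minpoly.mem_range_of_degree_eq_one F _ h4
  have h5 : (ρS g).trace = algebraMap F S t := by
    apply Subtype.ext
    change ((ρS g).trace : k) = algebraMap F k t
    rw [ht, Matrix.trace, Matrix.trace, AddSubmonoidClass.coe_finsetSum]
    exact Finset.sum_congr rfl fun i _ => hρS g i i
  rw [← ht]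
  congr 1
  change (f.toRingHom.mapMatrix (ρS g)).trace = t
  have h6 : (f.toRingHom.mapMatrix (ρS g)).trace = f ((ρS g).trace) := by
    rw [Matrix.trace, Matrix.trace, map_sum]
    rfl
  rw [h6, h5, AlgHom.commutes]
  rfl

end Pool.Agent.H955.ED.LIFT
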